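import Mathlib

section

set_option autoImplicit false

namespace Pool.Agent.MP_163ab5_co.VC

open Finset

variable {Ω β γ δ ε : Type*}

/-- Total weight of the points of `S` with the same value of `f` as `x`. -/
noncomputable def cw [DecidableEq β] (S : Finset Ω) (w : Ω → ℝ) (f : Ω → β) (x : Ω) : ℝ :=
  ∑ y ∈ S with f y = f x, w y

/-- Shannon entropy (natural logarithm) of `f` under the weight `w` on `S`. -/
noncomputable def ent [DecidableEq β] (S : Finset Ω) (w : Ω → ℝ) (f : Ω → β) : ℝ :=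
  - ∑ x ∈ S, w x * Real.log (cw S w f x)

/-- `w` is a positive probability weight on `S`. -/
def Pr (S : Finset Ω) (w : Ω → ℝ) : Prop := (∀ x ∈ S, 0 < w x) ∧ ∑ x ∈ S, w x = 1

variable [DecidableEq β] [DecidableEq γ] [DecidableEq δ] [DecidableEq ε]
variable {S : Finset Ω} {w : Ω → ℝ}

lemma cw_pos (h : Pr S w) (f : Ω → β) {x : Ω} (hx : x ∈ S) : 0 < cw S w f x :=
  Finset.sum_pos (fun y hy => h.1 y (Finset.mem_filter.1 hy).1)
    ⟨x, Finset.mem_filter.2 ⟨hx, rfl⟩⟩

lemma sum_mono (h : Pr S w) {p q : Ω → Prop} [DecidablePred p] [DecidablePred q]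
    (hpq : ∀ y ∈ S, p y → q y) : ∑ y ∈ S with p y, w y ≤ ∑ y ∈ S with q y, w y :=
  Finset.sum_le_sum_of_subset_of_nonneg
    (fun y hy => Finset.mem_filter.2 ⟨(Finset.mem_filter.1 hy).1,
      hpq y (Finset.mem_filter.1 hy).1 (Finset.mem_filter.1 hy).2⟩)
    fun y hy _ => (h.1 y (Finset.mem_filter.1 hy).1).le

lemma sum_le_one (h : Pr S w) (p : Ω → Prop) [DecidablePred p] : ∑ y ∈ S with p y, w y ≤ 1 := by
  rw [← h.2]
  exact Finset.sum_le_sum_of_subset_of_nonneg (Finset.filter_subset _ _)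
    fun y hy _ => (h.1 y hy).le

lemma sum_nn (h : Pr S w) (p : Ω → Prop) [DecidablePred p] : 0 ≤ ∑ y ∈ S with p y, w y :=
  Finset.sum_nonneg fun y hy => (h.1 y (Finset.mem_filter.1 hy).1).le

lemma cw_mono (h : Pr S w) {f : Ω → β} {g : Ω → γ} {x : Ω}
    (hfg : ∀ y ∈ S, f y = f x → g y = g x) : cw S w f x ≤ cw S w g x :=
  sum_mono h hfg

lemma ent_mono (h : Pr S w) {f : Ω → β} {g : Ω → γ}
    (hfg : ∀ x ∈ S, ∀ y ∈ S, f y = f x → g y = g x) : ent S w g ≤ ent S w f := by
  unfold ent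
  refine neg_le_neg (Finset.sum_le_sum fun x hx => ?_)
  exact mul_le_mul_of_nonneg_left
    (Real.log_le_log (cw_pos h f hx) (cw_mono h (hfg x hx))) (h.1 x hx).le

lemma ent_nonneg (h : Pr S w) (f : Ω → β) : 0 ≤ ent S w f := by
  unfold ent
  rw [neg_nonneg]
  exact Finset.sum_nonpos fun x hx => mul_nonpos_of_nonneg_of_nonpos (h.1 x hx).le
    (Real.log_nonpos (cw_pos h f hx).le (sum_le_one h _))

lemma sum_div_cw (h : Pr S w) (f : Ω → β) :
    ∑ x ∈ S, w x / cw S w f x = ((S.image f).card : ℝ) := by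
  rw [← Finset.sum_fiberwise_of_maps_to (g := f) (t := S.image f)
    (fun x hx => Finset.mem_image_of_mem f hx), Finset.card_eq_sum_ones]
  push_cast
  refine Finset.sum_congr rfl fun b hb => ?_
  obtain ⟨x, hx, rfl⟩ := Finset.mem_image.1 hb
  have h1 : ∀ y ∈ S.filter (fun y => f y = f x), w y / cw S w f y = w y / cw S w f x := by
    intro y hy
    unfold cw
    rw [(Finset.mem_filter.1 hy).2]
  rw [Finset.sum_congr rfl h1, ← Finset.sum_div]
  exact div_self (cw_pos h f hx).ne'

lemma ent_le_log (h : Pr S w) (f : Ω → β) {N : ℝ} (hN : ((S.image f).card : ℝ) ≤ N) :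
    ent S w f ≤ Real.log N := by
  have hS : S.Nonempty := by
    by_contra hS
    rw [Finset.not_nonempty_iff_eq_empty] at hS
    have := h.2
    simp [hS] at this
  have hc : (0 : ℝ) < (S.image f).card := by exact_mod_cast (hS.image f).card_pos
  have hN0 : 0 < N := hc.trans_le hN
  have h1 : ∀ x ∈ S, -(w x * Real.log (cw S w f x)) ≤
      w x * Real.log N + (w x / cw S w f x / N - w x) := by
    intro x hx
    have hp := cw_pos h f hx
    have h2 := Real.log_le_sub_one_of_pos (x := (cw S w f x * N)⁻¹) (by positivity)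
    rw [Real.log_inv, Real.log_mul hp.ne' hN0.ne'] at h2
    have h3 := mul_le_mul_of_nonneg_left h2 (h.1 x hx).le
    have h4 : w x / cw S w f x / N = w x * (cw S w f x * N)⁻¹ := by field_simp
    rw [h4]
    nlinarith
  unfold ent
  rw [← Finset.sum_neg_distrib]
  refine (Finset.sum_le_sum h1).trans ?_
  rw [Finset.sum_add_distrib, Finset.sum_sub_distrib, ← Finset.sum_mul, ← Finset.sum_div,
    sum_div_cw h, h.2]
  have : ((S.image f).card : ℝ) / N ≤ 1 := (div_le_one hN0).2 hN
  linarith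

lemma ent_submod (h : Pr S w) {f1 : Ω → β} {f2 : Ω → γ} {f3 : Ω → δ} {f4 : Ω → ε}
    (h1 : ∀ x ∈ S, ∀ y ∈ S, f2 y = f2 x → f3 y = f3 x → f1 y = f1 x)
    (h2 : ∀ x ∈ S, ∀ y ∈ S, f2 y = f2 x → f4 y = f4 x)
    (h3 : ∀ x ∈ S, ∀ y ∈ S, f3 y = f3 x → f4 y = f4 x) :
    ent S w f1 + ent S w f4 ≤ ent S w f2 + ent S w f3 := by
  have key : ∑ x ∈ S, w x * (cw S w f2 x * cw S w f3 x / (cw S w f1 x * cw S w f4 x)) ≤ 1 := by
    have e1 : ∀ x ∈ S, w x * (cw S w f2 x * cw S w f3 x / (cw S w f1 x * cw S w f4 x)) =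
        ∑ y ∈ S, ∑ z ∈ S, if f2 y = f2 x ∧ f3 z = f3 x then
          w y * w z * (w x / (cw S w f1 x * cw S w f4 x)) else 0 := by
      intro x _
      have e2 : cw S w f2 x * cw S w f3 x = ∑ y ∈ S, ∑ z ∈ S,
          if f2 y = f2 x ∧ f3 z = f3 x then w y * w z else 0 := by
        unfold cw
        rw [Finset.sum_filter, Finset.sum_filter, Finset.sum_mul_sum]
        refine Finset.sum_congr rfl fun y _ => Finset.sum_congr rfl fun z _ => ?_
        by_cases a : f2 y = f2 x <;> by_cases b : f3 z = f3 x <;> simp [a, b]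
      rw [mul_div_left_comm, e2, Finset.sum_mul]
      refine Finset.sum_congr rfl fun y _ => ?_
      rw [Finset.sum_mul]
      refine Finset.sum_congr rfl fun z _ => ?_
      split_ifs <;> simp
    rw [Finset.sum_congr rfl e1, Finset.sum_comm, ← h.2]
    refine Finset.sum_le_sum fun y hy => ?_
    rw [Finset.sum_comm]
    have hy4 := cw_pos h f4 hy
    have e3 : ∀ z ∈ S, (∑ x ∈ S, if f2 y = f2 x ∧ f3 z = f3 x then
          w y * w z * (w x / (cw S w f1 x * cw S w f4 x)) else 0) ≤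
        if f4 z = f4 y then w y * w z / cw S w f4 y else 0 := by
      intro z hz
      rw [← Finset.sum_filter]
      rcases (S.filter fun x => f2 y = f2 x ∧ f3 z = f3 x).eq_empty_or_nonempty with he | ⟨x0, hx0⟩
      · rw [he, Finset.sum_empty]
        have := h.1 y hy
        have := h.1 z hz
        split_ifs
        · positivity
        · exact le_rfl
      · obtain ⟨hx0, a0, b0⟩ := Finset.mem_filter.1 hx0
        have c0 : f4 z = f4 y := (h3 x0 hx0 z hz b0).trans (h2 x0 hx0 y hy a0).symm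
        rw [if_pos c0]
        have hp := cw_pos h f1 hx0
        have e4 : ∀ x ∈ S.filter (fun x => f2 y = f2 x ∧ f3 z = f3 x),
            w y * w z * (w x / (cw S w f1 x * cw S w f4 x)) =
              w y * w z / cw S w f4 y / cw S w f1 x0 * w x := by
          intro x hx
          obtain ⟨hx, a, b⟩ := Finset.mem_filter.1 hx
          have c1 : cw S w f1 x = cw S w f1 x0 := by
            unfold cw
            rw [h1 x0 hx0 x hx (a.symm.trans a0) (b.symm.trans b0)]
          have c4 : cw S w f4 x = cw S w f4 y := by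
            unfold cw
            rw [h2 x hx y hy a]
          rw [c1, c4]
          field_simp
        rw [Finset.sum_congr rfl e4, ← Finset.mul_sum]
        have e5 : ∑ x ∈ S with f2 y = f2 x ∧ f3 z = f3 x, w x ≤ cw S w f1 x0 :=
          sum_mono h fun x hx hh => h1 x0 hx0 x hx (hh.1.symm.trans a0) (hh.2.symm.trans b0)
        have := h.1 y hy
        have := h.1 z hz
        calc _ ≤ w y * w z / cw S w f4 y / cw S w f1 x0 * cw S w f1 x0 :=
              mul_le_mul_of_nonneg_left e5 (by positivity)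
          _ = _ := by field_simp
    refine (Finset.sum_le_sum e3).trans (le_of_eq ?_)
    rw [← Finset.sum_filter, ← Finset.sum_div, ← Finset.mul_sum]
    exact mul_div_cancel_right₀ _ hy4.ne'
  have pt : ∀ x ∈ S, w x * Real.log (cw S w f2 x) + w x * Real.log (cw S w f3 x) -
      (w x * Real.log (cw S w f1 x) + w x * Real.log (cw S w f4 x)) ≤
      w x * (cw S w f2 x * cw S w f3 x / (cw S w f1 x * cw S w f4 x)) - w x := by
    intro x hx
    have p1 := cw_pos h f1 hx
    have p2 := cw_pos h f2 hx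
    have p3 := cw_pos h f3 hx
    have p4 := cw_pos h f4 hx
    have h5 := Real.log_le_sub_one_of_pos
      (x := cw S w f2 x * cw S w f3 x / (cw S w f1 x * cw S w f4 x)) (by positivity)
    rw [Real.log_div (by positivity) (by positivity), Real.log_mul p2.ne' p3.ne',
      Real.log_mul p1.ne' p4.ne'] at h5
    have h6 := mul_le_mul_of_nonneg_left h5 (h.1 x hx).le
    nlinarith
  have := Finset.sum_le_sum pt
  rw [Finset.sum_sub_distrib, Finset.sum_sub_distrib, Finset.sum_add_distrib,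
    Finset.sum_add_distrib, h.2] at this
  unfold ent
  linarith

lemma ent_subadd (h : Pr S w) {f1 : Ω → β} {f2 : Ω → γ} {f3 : Ω → δ}
    (h1 : ∀ x ∈ S, ∀ y ∈ S, f2 y = f2 x → f3 y = f3 x → f1 y = f1 x) :
    ent S w f1 ≤ ent S w f2 + ent S w f3 := by
  have := ent_submod h (f4 := fun _ => ()) h1 (fun _ _ _ _ _ => rfl) fun _ _ _ _ _ => rfl
  have := ent_nonneg h (fun _ : Ω => ())
  linarith

lemma pr_prod {Ω' : Type*} {S' : Finset Ω'} {w' : Ω' → ℝ} (h : Pr S w) (h' : Pr S' w') :
    Pr (S ×ˢ S') fun p => w p.1 * w' p.2 := by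
  refine ⟨fun p hp => ?_, ?_⟩
  · obtain ⟨a, b⟩ := Finset.mem_product.1 hp
    exact mul_pos (h.1 _ a) (h'.1 _ b)
  · rw [Finset.sum_product]
    simp only [← Finset.mul_sum, h'.2, mul_one, h.2]

lemma sum_prod_filter {Ω' : Type*} (S' : Finset Ω') (w' : Ω' → ℝ) (p : Ω → Prop) (q : Ω' → Prop)
    [DecidablePred p] [DecidablePred q] :
    ∑ z ∈ S ×ˢ S' with p z.1 ∧ q z.2, w z.1 * w' z.2 =
      (∑ x ∈ S with p x, w x) * ∑ y ∈ S' with q y, w' y := by
  rw [Finset.filter_product, Finset.sum_product, Finset.sum_mul_sum]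

end Pool.Agent.MP_163ab5_co.VC

end

section

set_option autoImplicit false

namespace Pool.Agent.MP_163ab5_co.VC

open Finset

variable {α : Type*} [DecidableEq α]

/-- The tests of `T` that `X` avoids. -/
def info (T : Finset (Finset α)) (X : Finset α) : Finset (Finset α) :=
  T.filter fun D => Disjoint X D

/-- Weight of the members avoiding `P`. -/
noncomputable def av (A : Finset (Finset α)) (w : Finset α → ℝ) (P : Finset α) : ℝ :=
  ∑ Y ∈ A with Disjoint Y P, w Y

/-- Entropy of the outcome of the tests `T`. -/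
noncomputable def E1 (A : Finset (Finset α)) (w : Finset α → ℝ) (T : Finset (Finset α)) : ℝ :=
  ent A w (info T)

/-- Entropy of the outcome of the tests `T` on the union of two independent members. -/
noncomputable def E2 (A : Finset (Finset α)) (μ ν : Finset α → ℝ) (T : Finset (Finset α)) : ℝ :=
  ent (A ×ˢ A) (fun p => μ p.1 * ν p.2) fun p => info T (p.1 ∪ p.2)

lemma info_eq {T : Finset (Finset α)} {X Y : Finset α} :
    info T Y = info T X ↔ ∀ D ∈ T, (Disjoint Y D ↔ Disjoint X D) := by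
  unfold info
  constructor
  · intro h D hD
    have := Finset.ext_iff.1 h D
    simpa [hD] using this
  · intro h
    exact Finset.filter_congr h

variable {A : Finset (Finset α)} {μ ν : Finset α → ℝ}

lemma E1_mono (h : Pr A μ) {T T' : Finset (Finset α)} (hT : T ⊆ T') : E1 A μ T ≤ E1 A μ T' :=
  ent_mono h fun _ _ _ _ e => info_eq.2 fun D hD => info_eq.1 e D (hT hD)

lemma E2_mono (hμ : Pr A μ) (hν : Pr A ν) {T T' : Finset (Finset α)} (hT : T ⊆ T') :
    E2 A μ ν T ≤ E2 A μ ν T' :=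
  ent_mono (pr_prod hμ hν) fun _ _ _ _ e => info_eq.2 fun D hD => info_eq.1 e D (hT hD)

lemma E1_union (h : Pr A μ) (T T' : Finset (Finset α)) :
    E1 A μ (T ∪ T') ≤ E1 A μ T + E1 A μ T' :=
  ent_subadd h fun _ _ _ _ e e' => info_eq.2 fun D hD =>
    (Finset.mem_union.1 hD).elim (info_eq.1 e D) (info_eq.1 e' D)

lemma step (hμ : Pr A μ) (hν : Pr A ν) {T : Finset (Finset α)} {D P : Finset α} (hP : P ∈ T)
    (hD : D ⊆ P) :
    av A ν P * (E1 A μ (insert D T) - E1 A μ T) + av A μ P * (E1 A ν (insert D T) - E1 A ν T) ≤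
      E2 A μ ν (insert D T) - E2 A μ ν T := by
  have hp := pr_prod hμ hν
  set f1 : Finset α × Finset α → (Finset (Finset α) × Finset (Finset α)) × Bool :=
    fun p => ((info T p.1, info T p.2), decide (Disjoint (p.1 ∪ p.2) D)) with hf1
  set f2 : Finset α × Finset α → Finset (Finset α) × Finset (Finset α) :=
    fun p => (info T p.1, info T p.2) with hf2
  have sub := ent_submod hp (f1 := f1) (f2 := f2) (f3 := fun p => info (insert D T) (p.1 ∪ p.2))
    (f4 := fun p => info T (p.1 ∪ p.2))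
    (fun x _ y _ e e' => Prod.ext e (by
      have := info_eq.1 e' D (Finset.mem_insert_self _ _)
      simp only [hf1, this]))
    (fun x _ y _ e => info_eq.2 fun C hC => by
      have a := info_eq.1 (congrArg Prod.fst e) C hC
      have b := info_eq.1 (congrArg Prod.snd e) C hC
      simp only [Finset.disjoint_union_left, a, b])
    (fun x _ y _ e => info_eq.2 fun C hC => info_eq.1 e C (Finset.mem_insert_of_mem hC))
  set a : Finset α → ℝ := fun x =>
    Real.log (cw A μ (info T) x) - Real.log (cw A μ (info (insert D T)) x) with ha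
  set b : Finset α → ℝ := fun x =>
    Real.log (cw A ν (info T) x) - Real.log (cw A ν (info (insert D T)) x) with hb
  have same : ∀ (w : Finset α → ℝ) (x : Finset α), Disjoint x P →
      cw A w (info (insert D T)) x = cw A w (info T) x := by
    intro w x hx
    unfold cw
    refine Finset.sum_congr (Finset.filter_congr fun y _ => ?_) fun _ _ => rfl
    rw [info_eq, info_eq, Finset.forall_mem_insert]
    refine ⟨fun h => h.2, fun h => ⟨?_, h⟩⟩
    exact iff_of_true (((h P hP).2 hx).mono_right hD) (hx.mono_right hD)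
  have c2 : ∀ p : Finset α × Finset α, cw (A ×ˢ A) (fun p => μ p.1 * ν p.2) f2 p =
      cw A μ (info T) p.1 * cw A ν (info T) p.2 := by
    intro p
    unfold cw
    rw [← sum_prod_filter]
    refine Finset.sum_congr (Finset.filter_congr fun y _ => ?_) fun _ _ => rfl
    simp only [hf2, Prod.mk.injEq]
  have pt : ∀ p ∈ A ×ˢ A, μ p.1 * ν p.2 *
      ((if Disjoint p.2 P then a p.1 else 0) + if Disjoint p.1 P then b p.2 else 0) ≤
      μ p.1 * ν p.2 * Real.log (cw (A ×ˢ A) (fun p => μ p.1 * ν p.2) f2 p) -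
        μ p.1 * ν p.2 * Real.log (cw (A ×ˢ A) (fun p => μ p.1 * ν p.2) f1 p) := by
    intro p hpA
    obtain ⟨h1, h2⟩ := Finset.mem_product.1 hpA
    rw [← mul_sub]
    refine mul_le_mul_of_nonneg_left ?_ (hp.1 p hpA).le
    have q1 := cw_pos hp f1 hpA
    have m1 := cw_pos hμ (info T) h1
    have m2 := cw_pos hμ (info (insert D T)) h1
    have n1 := cw_pos hν (info T) h2
    have n2 := cw_pos hν (info (insert D T)) h2
    rw [c2, Real.log_mul m1.ne' n1.ne']
    by_cases hy : Disjoint p.2 P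
    · have le1 : cw (A ×ˢ A) (fun p => μ p.1 * ν p.2) f1 p ≤
          cw A μ (info (insert D T)) p.1 * cw A ν (info T) p.2 := by
        unfold cw
        rw [← sum_prod_filter]
        refine sum_mono hp fun y _ e => ?_
        have e1 : info T y.1 = info T p.1 := congrArg (fun z => z.1.1) e
        have e2 : info T y.2 = info T p.2 := congrArg (fun z => z.1.2) e
        have e3 : Disjoint (y.1 ∪ y.2) D ↔ Disjoint (p.1 ∪ p.2) D :=
          decide_eq_decide.1 (congrArg (fun z => z.2) e)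
        refine ⟨info_eq.2 (Finset.forall_mem_insert _ _ _ |>.2 ⟨?_, info_eq.1 e1⟩), e2⟩
        have d1 : Disjoint y.2 D := ((info_eq.1 e2 P hP).2 hy).mono_right hD
        have d2 : Disjoint p.2 D := hy.mono_right hD
        simpa [Finset.disjoint_union_left, d1, d2] using e3
      have l1 := Real.log_le_log q1 le1
      rw [Real.log_mul m2.ne' n1.ne'] at l1
      have hb0 : b p.2 = 0 := by simp only [hb, same ν _ hy, sub_self]
      simp only [if_pos hy, hb0, ite_self, ha]
      linarith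
    · by_cases hx : Disjoint p.1 P
      · have le1 : cw (A ×ˢ A) (fun p => μ p.1 * ν p.2) f1 p ≤
            cw A μ (info T) p.1 * cw A ν (info (insert D T)) p.2 := by
          unfold cw
          rw [← sum_prod_filter]
          refine sum_mono hp fun y _ e => ?_
          have e1 : info T y.1 = info T p.1 := congrArg (fun z => z.1.1) e
          have e2 : info T y.2 = info T p.2 := congrArg (fun z => z.1.2) e
          have e3 : Disjoint (y.1 ∪ y.2) D ↔ Disjoint (p.1 ∪ p.2) D :=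
            decide_eq_decide.1 (congrArg (fun z => z.2) e)
          refine ⟨e1, info_eq.2 (Finset.forall_mem_insert _ _ _ |>.2 ⟨?_, info_eq.1 e2⟩)⟩
          have d1 : Disjoint y.1 D := ((info_eq.1 e1 P hP).2 hx).mono_right hD
          have d2 : Disjoint p.1 D := hx.mono_right hD
          simpa [Finset.disjoint_union_left, d1, d2] using e3
        have l1 := Real.log_le_log q1 le1
        rw [Real.log_mul m1.ne' n2.ne'] at l1
        simp only [if_neg hy, if_pos hx, hb]
        linarith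
      · have le1 : cw (A ×ˢ A) (fun p => μ p.1 * ν p.2) f1 p ≤
            cw (A ×ˢ A) (fun p => μ p.1 * ν p.2) f2 p :=
          cw_mono hp fun y _ e => congrArg Prod.fst e
        have l1 := Real.log_le_log q1 le1
        rw [c2, Real.log_mul m1.ne' n1.ne'] at l1
        simp only [if_neg hy, if_neg hx]
        linarith
  have tot := Finset.sum_le_sum pt
  have s1 : ∑ p ∈ A ×ˢ A, μ p.1 * ν p.2 * (if Disjoint p.2 P then a p.1 else 0) =
      av A ν P * (E1 A μ (insert D T) - E1 A μ T) := by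
    have : E1 A μ (insert D T) - E1 A μ T = ∑ x ∈ A, μ x * a x := by
      simp only [E1, ent, ha, mul_sub, Finset.sum_sub_distrib]
      ring
    rw [this, Finset.sum_product, av, Finset.sum_filter, Finset.sum_mul_sum, Finset.sum_comm]
    refine Finset.sum_congr rfl fun y _ => Finset.sum_congr rfl fun x _ => ?_
    split_ifs <;> ring
  have s2 : ∑ p ∈ A ×ˢ A, μ p.1 * ν p.2 * (if Disjoint p.1 P then b p.2 else 0) =
      av A μ P * (E1 A ν (insert D T) - E1 A ν T) := by
    have : E1 A ν (insert D T) - E1 A ν T = ∑ x ∈ A, ν x * b x := by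
      simp only [E1, ent, hb, mul_sub, Finset.sum_sub_distrib]
      ring
    rw [this, Finset.sum_product, av, Finset.sum_filter, Finset.sum_mul_sum]
    refine Finset.sum_congr rfl fun y _ => Finset.sum_congr rfl fun x _ => ?_
    split_ifs <;> ring
  simp only [mul_add, Finset.sum_add_distrib, Finset.sum_sub_distrib] at tot
  rw [s1, s2] at tot
  unfold E2
  unfold ent at sub ⊢
  linarith

lemma block (hμ : Pr A μ) (hν : Pr A ν) {T : Finset (Finset α)} (B : Finset (Finset α)) {s t : ℝ}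
    (hB : ∀ D ∈ B, ∃ P ∈ T, D ⊆ P ∧ s ≤ av A ν P ∧ t ≤ av A μ P) :
    s * (E1 A μ (T ∪ B) - E1 A μ T) + t * (E1 A ν (T ∪ B) - E1 A ν T) ≤
      E2 A μ ν (T ∪ B) - E2 A μ ν T := by
  induction B using Finset.induction_on with
  | empty => simp
  | insert D B _ ih =>
    have ih := ih fun C hC => hB C (Finset.mem_insert_of_mem hC)
    obtain ⟨P, hP, hD, hs, ht⟩ := hB D (Finset.mem_insert_self _ _)
    have st := step hμ hν (T := T ∪ B) (Finset.mem_union_left _ hP) hD
    rw [Finset.union_insert]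
    have m1 := sub_nonneg.2 (E1_mono hμ (Finset.subset_insert D (T ∪ B)))
    have m2 := sub_nonneg.2 (E1_mono hν (Finset.subset_insert D (T ∪ B)))
    have := mul_le_mul_of_nonneg_right hs m1
    have := mul_le_mul_of_nonneg_right ht m2
    linarith

/-- All tests up to level `k`. -/
def upto (B : ℕ → Finset (Finset α)) : ℕ → Finset (Finset α)
  | 0 => B 0
  | k + 1 => upto B k ∪ B (k + 1)

lemma sub_upto (B : ℕ → Finset (Finset α)) (k : ℕ) : B k ⊆ upto B k := by
  cases k with
  | zero => exact Finset.Subset.rfl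
  | succ k => exact Finset.subset_union_right

lemma zero_upto (B : ℕ → Finset (Finset α)) (k : ℕ) : B 0 ⊆ upto B k := by
  induction k with
  | zero => exact Finset.Subset.rfl
  | succ k ih => exact ih.trans Finset.subset_union_left

/-- The chaining inequality. -/
lemma chain (hμ : Pr A μ) (hν : Pr A ν) (B : ℕ → Finset (Finset α)) {s t : ℝ} (hs : s ≤ 1)
    (ht : t ≤ 1) (l c : ℕ → ℝ) (hl : ∀ k, 0 ≤ l k) (cμ : ∀ k, E1 A μ (B k) ≤ c k)
    (cν : ∀ k, E1 A ν (B k) ≤ c k)
    (hB : ∀ k, ∀ D ∈ B (k + 1), ∃ P ∈ B k, D ⊆ P ∧ s - l k ≤ av A ν P ∧ t - l k ≤ av A μ P)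
    (k : ℕ) : s * E1 A μ (upto B k) + t * E1 A ν (upto B k) -
      2 * (c 0 + ∑ j ∈ range k, l j * c (j + 1)) ≤ E2 A μ ν (upto B k) := by
  induction k with
  | zero =>
    have h1 : 0 ≤ E2 A μ ν (upto B 0) := ent_nonneg (pr_prod hμ hν) _
    have h2 : 0 ≤ E1 A μ (B 0) := ent_nonneg hμ _
    have h3 : 0 ≤ E1 A ν (B 0) := ent_nonneg hν _
    have h4 := cμ 0
    have h5 := cν 0
    simp only [upto, Finset.range_zero, Finset.sum_empty] at h1 ⊢
    nlinarith
  | succ k ih =>
    have bl := block hμ hν (T := upto B k) (B (k + 1)) (s := s - l k) (t := t - l k)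
      fun D hD => by
        obtain ⟨P, hP, h⟩ := hB k D hD
        exact ⟨P, sub_upto B k hP, h⟩
    have u1 := E1_union hμ (upto B k) (B (k + 1))
    have u2 := E1_union hν (upto B k) (B (k + 1))
    have v1 : l k * (E1 A μ (upto B k ∪ B (k + 1)) - E1 A μ (upto B k)) ≤ l k * c (k + 1) :=
      mul_le_mul_of_nonneg_left (by linarith [cμ (k + 1)]) (hl k)
    have v2 : l k * (E1 A ν (upto B k ∪ B (k + 1)) - E1 A ν (upto B k)) ≤ l k * c (k + 1) :=
      mul_le_mul_of_nonneg_left (by linarith [cν (k + 1)]) (hl k)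
    rw [Finset.sum_range_succ]
    simp only [upto]
    linarith

end Pool.Agent.MP_163ab5_co.VC

end

section

set_option autoImplicit false

namespace Pool.Agent.MP_163ab5_co.VC

open Finset

section abstract

variable {ι κ : Type*} [DecidableEq ι] [Nonempty κ]

/-- Every identity system of the relation `r` between `I` and `K` has at most `b` rows. -/
def Small (r : ι → κ → Prop) (K : κ → Prop) (I : Finset ι) (b : ℕ) : Prop :=
  ∀ C ⊆ I, ∀ y : ι → κ, (∀ c ∈ C, K (y c) ∧ r c (y c) ∧ ∀ c' ∈ C, c' ≠ c → ¬ r c' (y c)) →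
    C.card ≤ b

lemma helly {r : ι → κ → Prop} {K : κ → Prop} {I : Finset ι} {b : ℕ} (h : Small r K I b)
    {C : Finset ι} (hC : C ⊆ I) :
    ∃ C' ⊆ C, C'.card ≤ b ∧ ∀ y, K y → (∀ c ∈ C', ¬ r c y) → ∀ c ∈ C, ¬ r c y := by
  classical
  obtain ⟨C', hC', hmin⟩ := Finset.exists_min_image
    (C.powerset.filter fun C' => ∀ y, K y → (∀ c ∈ C', ¬ r c y) → ∀ c ∈ C, ¬ r c y) Finset.card
    ⟨C, Finset.mem_filter.2 ⟨Finset.mem_powerset_self _, fun _ _ h => h⟩⟩
  obtain ⟨h1, h2⟩ := Finset.mem_filter.1 hC'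
  have h1 := Finset.mem_powerset.1 h1
  refine ⟨C', h1, ?_, h2⟩
  have : ∀ c ∈ C', ∃ y, K y ∧ r c y ∧ ∀ c' ∈ C', c' ≠ c → ¬ r c' y := by
    intro c hc
    by_contra hn
    have := hmin (C'.erase c) (Finset.mem_filter.2
      ⟨Finset.mem_powerset.2 ((Finset.erase_subset _ _).trans h1), fun y hy hr => h2 y hy ?_⟩)
    · have := Finset.card_erase_lt_of_mem hc
      omega
    · intro c' hc' hr'
      by_cases e : c' = c
      · exact hn ⟨y, hy, e ▸ hr', fun c'' hc'' ne => hr c'' (Finset.mem_erase.2 ⟨ne, hc''⟩)⟩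
      · exact hr c' (Finset.mem_erase.2 ⟨e, hc'⟩) hr'
  choose! y hy using this
  exact h C' (h1.trans hC) y hy

lemma count (I : Finset ι) (b : ℕ) :
    (I.powerset.filter fun C => C.card ≤ b).card ≤ (I.card + 1) ^ b := by
  induction b with
  | zero =>
    rw [pow_zero, Finset.card_le_one]
    intro a ha c hc
    have h1 := (Finset.mem_filter.1 ha).2
    have h2 := (Finset.mem_filter.1 hc).2
    rw [Nat.le_zero, Finset.card_eq_zero] at h1 h2
    rw [h1, h2]
  | succ b ih =>
    have h1 : (I.powerset.filter fun C => C.card ≤ b + 1) ⊆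
        (I.powerset.filter fun C => C.card ≤ b) ∪ I.powersetCard (b + 1) := by
      intro C hC
      obtain ⟨h1, h2⟩ := Finset.mem_filter.1 hC
      rcases Nat.of_le_succ h2 with h | h
      · exact Finset.mem_union_left _ (Finset.mem_filter.2 ⟨h1, h⟩)
      · exact Finset.mem_union_right _ (Finset.mem_powersetCard.2 ⟨Finset.mem_powerset.1 h1, h⟩)
    have h2 := (Finset.card_le_card h1).trans (Finset.card_union_le _ _)
    rw [Finset.card_powersetCard] at h2
    have h3 := Nat.choose_le_pow I.card (b + 1)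
    have h4 : I.card ^ b ≤ (I.card + 1) ^ b := Nat.pow_le_pow_left (Nat.le_succ _) _
    have h5 := Nat.mul_le_mul_right I.card h4
    rw [pow_succ] at h3
    rw [pow_succ, mul_add, mul_one]
    omega

lemma pat {r : ι → κ → Prop} [∀ c y, Decidable (r c y)] {K : κ → Prop} {I : Finset ι} {b : ℕ}
    (h : Small r K I b) (Kf : Finset κ) (hK : ∀ y ∈ Kf, K y) :
    (Kf.image fun y => I.filter fun c => ¬ r c y).card ≤ (I.card + 1) ^ b := by
  have : ∀ C ⊆ I, ∃ C' ⊆ C, C'.card ≤ b ∧ ∀ y, K y → (∀ c ∈ C', ¬ r c y) → ∀ c ∈ C, ¬ r c y :=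
    fun C hC => helly h hC
  choose! g hg using this
  refine le_trans (Finset.card_le_card_of_injOn g ?_ ?_) (count I b)
  · intro p hp
    obtain ⟨y, _, rfl⟩ := Finset.mem_image.1 (Finset.mem_coe.1 hp)
    obtain ⟨h1, h2, _⟩ := hg _ (Finset.filter_subset (fun c => ¬ r c y) I)
    exact Finset.mem_coe.2 (Finset.mem_filter.2
      ⟨Finset.mem_powerset.2 (h1.trans (Finset.filter_subset _ _)), h2⟩)
  · have key : ∀ y ∈ Kf, ∀ y' ∈ Kf, g (I.filter fun c => ¬ r c y) = g (I.filter fun c => ¬ r c y') →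
        (I.filter fun c => ¬ r c y) ⊆ I.filter fun c => ¬ r c y' := by
      intro y _ y' hy' e c hc
      obtain ⟨_, _, h3⟩ := hg _ (Finset.filter_subset (fun c => ¬ r c y) I)
      obtain ⟨h4, _, _⟩ := hg _ (Finset.filter_subset (fun c => ¬ r c y') I)
      refine Finset.mem_filter.2 ⟨(Finset.mem_filter.1 hc).1, h3 y' (hK y' hy') ?_ c hc⟩
      intro c' hc'
      exact (Finset.mem_filter.1 (h4 (e ▸ hc'))).2
    intro p hp p' hp' e
    obtain ⟨y, hy, rfl⟩ := Finset.mem_image.1 (Finset.mem_coe.1 hp)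
    obtain ⟨y', hy', rfl⟩ := Finset.mem_image.1 (Finset.mem_coe.1 hp')
    exact Finset.Subset.antisymm (key y hy y' hy' e) (key y' hy' y hy e.symm)

end abstract

variable {α : Type*} [DecidableEq α]

/-- No set of more than `b` points has all its singletons as traces of members of `A`. -/
def NI (A : Finset (Finset α)) (b : ℕ) : Prop :=
  ∀ S : Finset α, (∀ s ∈ S, ∃ X ∈ A, X ∩ S = {s}) → S.card ≤ b

variable {A : Finset (Finset α)} {b : ℕ}

lemma NI.sys (h : NI A b) {ι : Type*} (C : Finset ι) (Y : ι → Finset α) (e : ι → α)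
    (hY : ∀ c ∈ C, Y c ∈ A) (he : ∀ c ∈ C, e c ∈ Y c)
    (hn : ∀ c ∈ C, ∀ c' ∈ C, c' ≠ c → e c' ∉ Y c) : C.card ≤ b := by
  have inj : Set.InjOn e C := fun c hc c' hc' ee => by
    by_contra ne
    exact hn c' hc' c hc ne (ee ▸ he c' hc')
  rw [← Finset.card_image_of_injOn inj]
  refine h _ fun s hs => ?_
  obtain ⟨c, hc, rfl⟩ := Finset.mem_image.1 hs
  refine ⟨Y c, hY c hc, Finset.eq_singleton_iff_unique_mem.2
    ⟨Finset.mem_inter.2 ⟨he c hc, hs⟩, fun x hx => ?_⟩⟩
  obtain ⟨h1, h2⟩ := Finset.mem_inter.1 hx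
  obtain ⟨c', hc', rfl⟩ := Finset.mem_image.1 h2
  by_contra ne
  exact hn c hc c' hc' (fun ee => ne (ee ▸ rfl)) h1

lemma NI.points (h : NI A b) (I : Finset α) :
    Small (fun (e : α) (Y : Finset α) => e ∈ Y) (· ∈ A) I b :=
  fun C _ y hy => h.sys C y id (fun c hc => (hy c hc).1) (fun c hc => (hy c hc).2.1)
    fun c hc c' hc' ne => (hy c hc).2.2 c' hc' ne

lemma NI.members (h : NI A b) {I : Finset (Finset α)} (hI : I ⊆ A) :
    Small (fun (Y : Finset α) (e : α) => e ∈ Y) (fun _ => True) I b :=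
  fun C hC y hy => h.sys C id y (fun _ hc => hI (hC hc)) (fun c hc => (hy c hc).2.1)
    fun c hc c' hc' ne => (hy c' hc').2.2 c hc ne.symm

lemma NI.tests [Nonempty α] (h : NI A b) (I : Finset (Finset α)) :
    Small (fun (D Y : Finset α) => ¬ Disjoint Y D) (· ∈ A) I b := by
  intro C _ y hy
  have : ∀ c ∈ C, ∃ e, e ∈ y c ∧ e ∈ c := fun c hc => Finset.not_disjoint_iff.1 (hy c hc).2.1
  choose! e he using this
  exact h.sys C y e (fun c hc => (hy c hc).1) (fun c hc => (he c hc).1) fun c hc c' hc' ne hm =>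
    (hy c hc).2.2 c' hc' ne (Finset.not_disjoint_iff.2 ⟨e c', hm, (he c' hc').2⟩)

lemma ni_vc (hc : ∀ X ∈ A, ∀ Y ∈ A, X ∪ Y ∈ A) : NI A (A.vcDim + 1) := by
  intro S hS
  rcases S.eq_empty_or_nonempty with rfl | ⟨s, hs⟩
  · simp
  have sh : A.Shatters (S.erase s) := by
    intro T hT
    induction T using Finset.induction_on with
    | empty =>
      obtain ⟨X, hX, e⟩ := hS s hs
      refine ⟨X, hX, Finset.eq_empty_of_forall_notMem fun x hx => ?_⟩
      obtain ⟨h1, h2⟩ := Finset.mem_inter.1 hx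
      obtain ⟨h3, h4⟩ := Finset.mem_erase.1 h1
      exact h3 (Finset.mem_singleton.1 (e ▸ Finset.mem_inter.2 ⟨h2, h4⟩))
    | insert t T _ ih =>
      obtain ⟨X, hX, e⟩ := ih ((Finset.subset_insert _ _).trans hT)
      have ht := hT (Finset.mem_insert_self _ _)
      obtain ⟨Y, hY, e'⟩ := hS t (Finset.mem_of_mem_erase ht)
      refine ⟨Y ∪ X, hc _ hY _ hX, ?_⟩
      rw [Finset.inter_union_distrib_left, e, Finset.insert_eq]
      congr 1
      refine Finset.eq_singleton_iff_unique_mem.2 ⟨Finset.mem_inter.2 ⟨ht, ?_⟩, fun x hx => ?_⟩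
      · exact (Finset.mem_inter.1 (e' ▸ Finset.mem_singleton_self t : t ∈ Y ∩ S)).1
      · obtain ⟨h1, h2⟩ := Finset.mem_inter.1 hx
        exact Finset.mem_singleton.1 (e' ▸ Finset.mem_inter.2 ⟨h2, Finset.mem_of_mem_erase h1⟩)
  have := sh.card_le_vcDim
  rw [Finset.card_erase_of_mem hs] at this
  omega

/-- Number of members separating two points. -/
def dl (A : Finset (Finset α)) (e e' : α) : ℕ := (A.filter fun Y => ¬ (e ∈ Y ↔ e' ∈ Y)).card

lemma dl_self (e : α) : dl A e e = 0 := by simp [dl]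

lemma dl_comm (e e' : α) : dl A e e' = dl A e' e := by simp only [dl, iff_comm]

lemma dl_tri (e e' e'' : α) : dl A e e'' ≤ dl A e e' + dl A e' e'' := by
  refine le_trans (Finset.card_le_card fun Y hY => ?_) (Finset.card_union_le _ _)
  simp only [Finset.mem_union, Finset.mem_filter] at hY ⊢
  tauto

lemma greedy (hA : A.Nonempty) {q : ℕ} (hq : 0 < q) (P : Finset (α × α))
    (hP : ∀ p ∈ P, A.card ≤ q * dl A p.1 p.2) (s : ℕ) :
    ∃ I ⊆ A, I.card ≤ s ∧ ((P.filter fun p => ∀ Y ∈ I, (p.1 ∈ Y ↔ p.2 ∈ Y)).card : ℝ) ≤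
      (1 - 1 / q) ^ s * P.card := by
  induction s with
  | zero => exact ⟨∅, Finset.empty_subset _, le_rfl, by simp⟩
  | succ s ih =>
    obtain ⟨I, hI, hs, hc⟩ := ih
    set P' := P.filter fun p => ∀ Y ∈ I, (p.1 ∈ Y ↔ p.2 ∈ Y) with hP'
    have h1 : ∑ _Y ∈ A, P'.card ≤
        ∑ Y ∈ A, q * (P'.filter fun p => ¬ (p.1 ∈ Y ↔ p.2 ∈ Y)).card := by
      rw [← Finset.mul_sum]
      simp only [Finset.card_filter]
      rw [Finset.sum_comm, Finset.mul_sum, Finset.sum_const, smul_eq_mul, mul_comm,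
        Finset.card_eq_sum_ones P', Finset.sum_mul]
      refine Finset.sum_le_sum fun p hp => ?_
      have := hP p (Finset.mem_filter.1 hp).1
      rwa [one_mul, ← Finset.card_filter]
    obtain ⟨Y, hY, h2⟩ := Finset.exists_le_of_sum_le hA h1
    refine ⟨insert Y I, Finset.insert_subset hY hI, (Finset.card_insert_le _ _).trans (by omega), ?_⟩
    have h3 : (P.filter fun p => ∀ Z ∈ insert Y I, (p.1 ∈ Z ↔ p.2 ∈ Z)) =
        P'.filter fun p => (p.1 ∈ Y ↔ p.2 ∈ Y) := by
      rw [hP', Finset.filter_filter]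
      exact Finset.filter_congr fun p _ => by rw [Finset.forall_mem_insert, and_comm]
    have h4 := Finset.card_filter_add_card_filter_not (s := P') fun p => (p.1 ∈ Y ↔ p.2 ∈ Y)
    rw [h3]
    have hq' : (0 : ℝ) < q := by exact_mod_cast hq
    have hq1 : (0 : ℝ) ≤ 1 - 1 / q := by
      rw [sub_nonneg, div_le_one hq']
      exact_mod_cast hq
    have h2' : (P'.card : ℝ) ≤ q * (P'.filter fun p => ¬ (p.1 ∈ Y ↔ p.2 ∈ Y)).card := by
      exact_mod_cast h2
    have h4' : ((P'.filter fun p => (p.1 ∈ Y ↔ p.2 ∈ Y)).card : ℝ) +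
        (P'.filter fun p => ¬ (p.1 ∈ Y ↔ p.2 ∈ Y)).card = P'.card := by exact_mod_cast h4
    have h5 : (P'.card : ℝ) / q ≤ (P'.filter fun p => ¬ (p.1 ∈ Y ↔ p.2 ∈ Y)).card := by
      rwa [div_le_iff₀ hq', mul_comm]
    calc _ ≤ (1 - 1 / q) * (P'.card : ℝ) := by
          rw [sub_mul, one_mul, one_div, inv_mul_eq_div]
          linarith
      _ ≤ (1 - 1 / q) * ((1 - 1 / q) ^ s * P.card) := mul_le_mul_of_nonneg_left hc hq1
      _ = _ := by ring

lemma packing [Nonempty α] (h : NI A b) (hA : A.Nonempty) {q x : ℕ} (hq : 0 < q)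
    (hx : (q * (2 * x + 1) + 1) ^ b < 2 ^ x) (T : Finset α)
    (hT : ∀ e ∈ T, ∀ e' ∈ T, e ≠ e' → A.card < q * dl A e e') : T.card < 2 ^ x := by
  by_contra hn
  obtain ⟨T', hT', hc⟩ := Finset.exists_subset_card_eq (not_lt.1 hn)
  obtain ⟨I, hI, hs, hu⟩ := greedy hA hq T'.offDiag (fun p hp => by
    obtain ⟨h1, h2, h3⟩ := Finset.mem_offDiag.1 hp
    exact (hT _ (hT' h1) _ (hT' h2) h3).le) (q * (2 * x + 1))
  have hq' : (0 : ℝ) < q := by exact_mod_cast hq
  have hq1 : (0 : ℝ) ≤ 1 - 1 / q := by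
    rw [sub_nonneg, div_le_one hq']
    exact_mod_cast hq
  have e1 : (1 - 1 / q : ℝ) ^ q ≤ 1 / 2 := by
    have h1 : (1 - 1 / q : ℝ) ≤ Real.exp (-(1 / q)) := by linarith [Real.add_one_le_exp (-(1 / q))]
    have h2 := pow_le_pow_left₀ hq1 h1 q
    rw [← Real.exp_nat_mul, mul_neg, mul_one_div_cancel hq'.ne', Real.exp_neg] at h2
    refine h2.trans ?_
    rw [one_div]
    exact inv_anti₀ two_pos (by linarith [Real.add_one_le_exp 1])
  have e2 : (T'.offDiag.card : ℝ) ≤ 2 ^ x * 2 ^ x := by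
    have : T'.offDiag.card ≤ 2 ^ x * 2 ^ x := by
      rw [Finset.offDiag_card, hc]
      exact Nat.sub_le _ _
    exact_mod_cast this
  have e3 : ((T'.offDiag.filter fun p => ∀ Y ∈ I, (p.1 ∈ Y ↔ p.2 ∈ Y)).card : ℝ) < 1 := by
    refine hu.trans_lt ?_
    rw [pow_mul]
    calc _ ≤ (1 / 2 : ℝ) ^ (2 * x + 1) * (2 ^ x * 2 ^ x) :=
          mul_le_mul (pow_le_pow_left₀ (pow_nonneg hq1 _) e1 _) e2 (Nat.cast_nonneg _)
            (by positivity)
      _ = 1 / 2 := by
          rw [pow_succ, two_mul, pow_add, one_div, inv_pow]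
          field_simp
      _ < 1 := by norm_num
  have e4 : (T'.offDiag.filter fun p => ∀ Y ∈ I, (p.1 ∈ Y ↔ p.2 ∈ Y)) = ∅ := by
    rw [← Finset.card_eq_zero, ← Nat.lt_one_iff]
    exact_mod_cast e3
  have e5 := pat (h.members hI) T' fun _ _ => trivial
  rw [Finset.card_image_of_injOn, hc] at e5
  · have := Nat.pow_le_pow_left (Nat.add_le_add_right hs 1) b
    omega
  · intro e he e' he' ee
    by_contra ne
    refine Finset.notMem_empty (e, e') (e4 ▸ Finset.mem_filter.2
      ⟨Finset.mem_offDiag.2 ⟨he, he', ne⟩, fun Y hY => ?_⟩)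
    have := Finset.ext_iff.1 ee Y
    simp only [Finset.mem_filter, hY, true_and] at this
    exact not_iff_not.1 this

lemma arith (hb : 0 < b) (k : ℕ) :
    (b * 2 ^ k * (2 * (2 * b * (k + 2 * b + 3)) + 1) + 1) ^ b < 2 ^ (2 * b * (k + 2 * b + 3)) := by
  have h1 : 2 ^ (2 * b * (k + 2 * b + 3)) = (2 ^ (k + 2 * b + 3) * 2 ^ (k + 2 * b + 3)) ^ b := by
    rw [← pow_add, ← pow_mul]
    congr 1
    ring
  rw [h1]
  refine Nat.pow_lt_pow_left ?_ hb.ne'
  have h2 : b ≤ 2 ^ b := Nat.lt_two_pow_self.le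
  have h3 : k + 2 * b + 3 ≤ 2 ^ (k + 2 * b + 3) := Nat.lt_two_pow_self.le
  have h4 : 2 ^ (k + 2 * b + 3) = 8 * (2 ^ k * (2 ^ b * 2 ^ b)) := by ring
  have h5 : 8 * (2 ^ k * (b * b)) ≤ 2 ^ (k + 2 * b + 3) := by
    rw [h4]
    gcongr
  have h6 := Nat.mul_le_mul h5 h3
  refine lt_of_lt_of_le ?_ h6
  have h7 : 0 < 2 ^ k := Nat.two_pow_pos k
  obtain ⟨u, hu⟩ := Nat.exists_eq_add_of_lt h7
  obtain ⟨v, rfl⟩ := Nat.exists_eq_add_of_lt hb
  rw [hu]
  nlinarith [Nat.zero_le (u * v), Nat.zero_le (u * v * v), Nat.zero_le (u * v * v * v),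
    Nat.zero_le (k * u * v * v), Nat.zero_le (k * u * v), Nat.zero_le (k * u), Nat.zero_le (k * v),
    Nat.zero_le (k * v * v), Nat.zero_le (v * v), Nat.zero_le (v * v * v)]

lemma net (A : Finset (Finset α)) (U : Finset α) (q : ℕ) :
    ∃ T ⊆ U, (∀ e ∈ T, ∀ e' ∈ T, e ≠ e' → A.card < q * dl A e e') ∧
      ∀ e ∈ U, ∃ c ∈ T, q * dl A e c ≤ A.card := by
  obtain ⟨T, hT, hmax⟩ := Finset.exists_max_image
    (U.powerset.filter fun T => ∀ e ∈ T, ∀ e' ∈ T, e ≠ e' → A.card < q * dl A e e') Finset.card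
    ⟨∅, by simp⟩
  obtain ⟨h1, h2⟩ := Finset.mem_filter.1 hT
  have h1 := Finset.mem_powerset.1 h1
  refine ⟨T, h1, h2, fun e he => ?_⟩
  by_contra hn
  push Not at hn
  have h3 : e ∉ T := fun h => by simpa [dl_self] using hn e h
  have := hmax (insert e T) (Finset.mem_filter.2
    ⟨Finset.mem_powerset.2 (Finset.insert_subset he h1), ?_⟩)
  · rw [Finset.card_insert_of_notMem h3] at this
    omega
  · intro x hx y hy ne
    rcases Finset.mem_insert.1 hx with rfl | hx' <;> rcases Finset.mem_insert.1 hy with rfl | hy'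
    · exact absurd rfl ne
    · exact hn y hy'
    · exact dl_comm (A := A) x y ▸ hn x hx'
    · exact h2 x hx' y hy' ne

end Pool.Agent.MP_163ab5_co.VC

end

section

set_option autoImplicit false

namespace Pool.Agent.MP_163ab5_co.VC

open Finset

variable {α : Type*} [DecidableEq α] [Nonempty α] {A : Finset (Finset α)} {b : ℕ}

/-- The points of `U` at distance at most `2 / q` from `c`. -/
def ball (A : Finset (Finset α)) (U : Finset α) (q : ℕ) (c : α) : Finset α :=
  U.filter fun e => q * dl A e c ≤ 2 * A.card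

omit [Nonempty α] in
lemma ball_av (h : NI A b) (U : Finset α) (n : ℕ) {c : α}
    (hc : 2 * (A.filter fun Y => c ∈ Y).card ≤ A.card) :
    n * A.card ≤ 2 * (n * (A.filter fun Y => Disjoint Y (ball A U (b * n) c)).card) +
      4 * A.card := by
  obtain ⟨C, hC, h1, h2⟩ := helly (h.points (ball A U (b * n) c)) (Finset.Subset.refl _)
  have s1 : A ⊆ (A.filter fun Y => c ∈ Y) ∪ ((A.filter fun Y => Disjoint Y (ball A U (b * n) c)) ∪
      C.biUnion fun e => A.filter fun Y => ¬ (e ∈ Y ↔ c ∈ Y)) := by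
    intro Y hY
    simp only [Finset.mem_union, Finset.mem_filter, Finset.mem_biUnion, hY, true_and]
    by_cases a : c ∈ Y
    · exact Or.inl a
    · by_cases a' : ∀ e ∈ C, e ∉ Y
      · exact Or.inr (Or.inl (Finset.disjoint_right.2 fun e he => h2 Y hY a' e he))
      · push Not at a'
        obtain ⟨e, he, he'⟩ := a'
        exact Or.inr (Or.inr ⟨e, he, fun hh => a (hh.1 he')⟩)
  have s2 := (Finset.card_le_card s1).trans ((Finset.card_union_le _ _).trans
    (Nat.add_le_add_left ((Finset.card_union_le _ _).trans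
      (Nat.add_le_add_left Finset.card_biUnion_le _)) _))
  have s3 : b * (n * ∑ e ∈ C, dl A e c) ≤ b * (2 * A.card) := by
    rw [← mul_assoc, Finset.mul_sum]
    refine (Finset.sum_le_card_nsmul C _ (2 * A.card) fun e he =>
      (Finset.mem_filter.1 (hC he)).2).trans ?_
    exact Nat.mul_le_mul_right _ h1
  have s4 : n * ∑ e ∈ C, dl A e c ≤ 2 * A.card := by
    rcases Nat.eq_zero_or_pos b with rfl | hb
    · rw [Finset.card_eq_zero.1 (Nat.le_zero.1 h1)]
      simp
    · exact Nat.le_of_mul_le_mul_left s3 hb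
  have s5 := Nat.mul_le_mul_left n s2
  have s6 := Nat.mul_le_mul_left n hc
  unfold dl at s4
  nlinarith

lemma E1_le (h : NI A b) {μ : Finset α → ℝ} (hμ : Pr A μ) (T : Finset (Finset α)) {x : ℕ}
    (hT : T.card < 2 ^ x) : E1 A μ T ≤ Real.log 2 * (b * x) := by
  have h1 := pat (h.tests T) A fun _ hy => hy
  have h2 : (A.image (info T)).card ≤ 2 ^ (b * x) := by
    have : (info T : Finset α → _) = fun y => T.filter fun c => ¬ ¬ Disjoint y c := by
      funext y
      simp only [info, not_not]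
    rw [this, mul_comm, pow_mul]
    exact h1.trans (Nat.pow_le_pow_left hT b)
  have h3 := ent_le_log hμ (info T) (N := 2 ^ (b * x)) (by exact_mod_cast h2)
  rw [Real.log_pow] at h3
  push_cast at h3
  unfold E1
  linarith

omit [Nonempty α] in
lemma E1_le_card {μ : Finset α → ℝ} (hμ : Pr A μ) (T : Finset (Finset α)) :
    E1 A μ T ≤ Real.log 2 * T.card := by
  have h2 : (A.image (info T)).card ≤ 2 ^ T.card := by
    rw [← Finset.card_powerset]
    refine Finset.card_le_card fun p hp => ?_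
    obtain ⟨y, _, rfl⟩ := Finset.mem_image.1 hp
    exact Finset.mem_powerset.2 (Finset.filter_subset _ _)
  have h3 := ent_le_log hμ (info T) (N := 2 ^ T.card) (by exact_mod_cast h2)
  rw [Real.log_pow] at h3
  unfold E1
  linarith

lemma geo (c : ℝ) (k : ℕ) :
    ∑ j ∈ range k, ((j : ℝ) + c) / 2 ^ j = 2 * c + 2 - (2 * k + 2 * c + 2) / 2 ^ k := by
  induction k with
  | zero => simp
  | succ k ih =>
    rw [Finset.sum_range_succ, ih, pow_succ]
    push_cast
    field_simp
    ring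

/-- The uniform weight. -/
noncomputable def unif (A : Finset (Finset α)) : Finset α → ℝ := fun _ => 1 / A.card

omit [Nonempty α] in
lemma av_unif (P : Finset α) :
    av A (unif A) P = (A.filter fun Y => Disjoint Y P).card / A.card := by
  simp [av, unif, div_eq_mul_inv]

/-- The entropy of the union of two independent members. -/
lemma gi (h : NI A b) (hb : 0 < b) (hA : A.Nonempty) (W : Finset α)
    (hW : ∀ e ∉ W, 2 * (A.filter fun Y => e ∈ Y).card ≤ A.card) {μ ν : Finset α → ℝ}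
    (hμ : Pr A μ) (hν : Pr A ν) {s t : ℝ} (hs : s ≤ 1) (ht : t ≤ 1)
    (h1 : ∀ P (l : ℝ), 0 ≤ l → 1 / 2 - l ≤ av A (unif A) P → s - 2 * l ≤ av A ν P)
    (h2 : ∀ P (l : ℝ), 0 ≤ l → 1 / 2 - l ≤ av A (unif A) P → t - 2 * l ≤ av A μ P) :
    s * ent A μ id + t * ent A ν id - 2 * (Real.log 2 * (W.card + 122 * b ^ 3)) ≤
      ent (A ×ˢ A) (fun p => μ p.1 * ν p.2) fun p => p.1 ∪ p.2 := by
  set U := A.biUnion id \ W with hU
  choose T hT sep cov using fun k => net A U (b * 2 ^ k)
  have hq : ∀ k, 0 < b * 2 ^ k := fun k => Nat.mul_pos hb (Nat.two_pow_pos k)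
  have tc : ∀ k, ((T k).image (ball A U (b * 2 ^ k))).card < 2 ^ (2 * b * (k + 2 * b + 3)) :=
    fun k => Finset.card_image_le.trans_lt (packing h hA (hq k) (arith hb k) _ (sep k))
  let B : ℕ → Finset (Finset α) := fun k =>
    (if k = 0 then W.image singleton else ∅) ∪ (T k).image (ball A U (b * 2 ^ k))
  let c : ℕ → ℝ := fun k => Real.log 2 * (if k = 0 then (W.card : ℝ) else 0) +
    Real.log 2 * (b * (2 * b * (k + 2 * b + 3) : ℕ))
  have l2 : 0 < Real.log 2 := Real.log_pos one_lt_two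
  have hc : ∀ {w : Finset α → ℝ}, Pr A w → ∀ k, E1 A w (B k) ≤ c k := by
    intro w hw k
    refine (E1_union hw _ _).trans (add_le_add ((E1_le_card hw _).trans ?_) (E1_le h hw _ (tc k)))
    refine mul_le_mul_of_nonneg_left ?_ l2.le
    split_ifs
    · exact_mod_cast Finset.card_image_le
    · simp
  have hm : (0 : ℝ) < A.card := by exact_mod_cast hA.card_pos
  have hB : ∀ k, ∀ D ∈ B (k + 1), ∃ P ∈ B k, D ⊆ P ∧ s - 2 * (2 / 2 ^ k) ≤ av A ν P ∧
      t - 2 * (2 / 2 ^ k) ≤ av A μ P := by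
    intro k D hD
    simp only [B, Nat.succ_ne_zero, if_false, Finset.empty_union] at hD
    obtain ⟨x, hx, rfl⟩ := Finset.mem_image.1 hD
    obtain ⟨y, hy, hxy⟩ := cov k x (hT _ hx)
    have a1 : 1 / 2 - 2 / 2 ^ k ≤ av A (unif A) (ball A U (b * 2 ^ k) y) := by
      have a2 := ball_av h U (2 ^ k) (hW y (Finset.mem_sdiff.1 (hT _ hy)).2)
      have a3 : (2 : ℝ) ^ k * A.card ≤
          2 * (2 ^ k * (A.filter fun Y => Disjoint Y (ball A U (b * 2 ^ k) y)).card) +
            4 * A.card := by exact_mod_cast a2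
      rw [av_unif, le_div_iff₀ hm, sub_mul, sub_le_iff_le_add, div_mul_eq_mul_div 2,
        ← sub_le_iff_le_add', le_div_iff₀ (by positivity)]
      nlinarith
    refine ⟨_, Finset.mem_union_right _ (Finset.mem_image_of_mem _ hy), fun e he => ?_,
      h1 _ _ (by positivity) a1, h2 _ _ (by positivity) a1⟩
    obtain ⟨e1, e2⟩ := Finset.mem_filter.1 he
    refine Finset.mem_filter.2 ⟨e1, ?_⟩
    have e3 := Nat.mul_le_mul_left (b * 2 ^ k) (dl_tri (A := A) e x y)
    rw [pow_succ] at e2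
    nlinarith
  have ch := chain hμ hν B hs ht (fun k => 2 * (2 / 2 ^ k)) c (fun k => by positivity) (hc hμ)
    (hc hν) hB (A.card + 1)
  have det : ∀ X ∈ A, ∀ Y ∈ A, info (upto B (A.card + 1)) Y = info (upto B (A.card + 1)) X →
      id Y = id X := by
    have big : 2 * A.card < b * 2 ^ (A.card + 1) := by
      have := Nat.lt_two_pow_self (n := A.card)
      have := Nat.mul_le_mul_right (2 ^ (A.card + 1)) hb
      rw [pow_succ] at this ⊢
      omega
    have zero : ∀ e x, b * 2 ^ (A.card + 1) * dl A e x ≤ 2 * A.card → ∀ Y ∈ A,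
        (e ∈ Y ↔ x ∈ Y) := by
      intro e x hex Y hY
      by_contra hn
      have : 0 < dl A e x := Finset.card_pos.2 ⟨Y, Finset.mem_filter.2 ⟨hY, hn⟩⟩
      have := Nat.mul_le_mul_left (b * 2 ^ (A.card + 1)) this
      omega
    have half : ∀ X ∈ A, ∀ Y ∈ A,
        info (upto B (A.card + 1)) Y = info (upto B (A.card + 1)) X → Y ⊆ X := by
      intro X hX Y hY ee e he
      by_contra hn
      by_cases hw : e ∈ W
      · have := (info_eq.1 ee {e} (zero_upto B _ (Finset.mem_union_left _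
          (by simpa using hw)))).2 (Finset.disjoint_singleton_right.2 hn)
        exact Finset.disjoint_singleton_right.1 this he
      · have hU' : e ∈ U := Finset.mem_sdiff.2 ⟨Finset.mem_biUnion.2 ⟨Y, hY, he⟩, hw⟩
        obtain ⟨x, hx, hex⟩ := cov (A.card + 1) e hU'
        have hex' : b * 2 ^ (A.card + 1) * dl A e x ≤ 2 * A.card := by omega
        have := (info_eq.1 ee (ball A U (b * 2 ^ (A.card + 1)) x) (sub_upto B _
          (Finset.mem_union_right _ (Finset.mem_image_of_mem _ hx)))).2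
          (Finset.disjoint_left.2 fun e' he' hb' => hn ((zero e x hex' X hX).2
            ((zero e' x (Finset.mem_filter.1 hb').2 X hX).1 he')))
        exact Finset.disjoint_left.1 this he (Finset.mem_filter.2 ⟨hU', hex'⟩)
    exact fun X hX Y hY ee => Finset.Subset.antisymm (half X hX Y hY ee) (half Y hY X hX ee.symm)
  have eq : ∀ {w : Finset α → ℝ}, Pr A w → E1 A w (upto B (A.card + 1)) = ent A w id :=
    fun hw => le_antisymm (ent_mono hw fun _ _ _ _ e => congrArg _ e) (ent_mono hw det)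
  rw [eq hμ, eq hν] at ch
  have up : E2 A μ ν (upto B (A.card + 1)) ≤
      ent (A ×ˢ A) (fun p => μ p.1 * ν p.2) fun p => p.1 ∪ p.2 :=
    ent_mono (pr_prod hμ hν) fun _ _ _ _ e => congrArg _ e
  have sm : ∑ j ∈ range (A.card + 1), 2 * (2 / 2 ^ j) * c (j + 1) =
      Real.log 2 * (8 * b ^ 2) * ∑ j ∈ range (A.card + 1), ((j : ℝ) + (2 * b + 4)) / 2 ^ j := by
    rw [Finset.mul_sum]
    refine Finset.sum_congr rfl fun j _ => ?_
    simp only [c, Nat.succ_ne_zero, if_false]
    push_cast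
    ring
  have hb1 : (1 : ℝ) ≤ b := by exact_mod_cast hb
  have sm2 : ∑ j ∈ range (A.card + 1), ((j : ℝ) + (2 * b + 4)) / 2 ^ j ≤ 4 * b + 10 := by
    rw [geo]
    have : (0 : ℝ) ≤ (2 * (A.card + 1 : ℕ) + 2 * (2 * b + 4) + 2) / 2 ^ (A.card + 1) := by
      positivity
    linarith
  have sm3 := mul_le_mul_of_nonneg_left sm2 (by positivity : 0 ≤ Real.log 2 * (8 * (b : ℝ) ^ 2))
  have c0 : c 0 = Real.log 2 * (W.card + 2 * b ^ 2 * (2 * b + 3)) := by
    simp only [c, if_true]
    push_cast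
    ring
  have hb2 : Real.log 2 * (b : ℝ) ^ 2 ≤ Real.log 2 * b ^ 3 :=
    mul_le_mul_of_nonneg_left (pow_le_pow_right₀ hb1 (by norm_num)) l2.le
  rw [sm, c0] at ch
  nlinarith

end Pool.Agent.MP_163ab5_co.VC

end

section

set_option autoImplicit false

namespace Pool.Agent.MP_163ab5_co.VC

open Finset

variable {α : Type*} [DecidableEq α] {A : Finset (Finset α)} {b : ℕ}

omit [DecidableEq α] in
lemma pr_unif (hA : A.Nonempty) : Pr A (unif A) := by
  have hm : (0 : ℝ) < A.card := by exact_mod_cast hA.card_pos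
  refine ⟨fun _ _ => by unfold unif; positivity, ?_⟩
  simp only [unif, Finset.sum_const, nsmul_eq_mul]
  field_simp

lemma cw_id (w : Finset α → ℝ) {x : Finset α} (hx : x ∈ A) : cw A w id x = w x := by
  unfold cw
  simp only [id]
  rw [Finset.filter_eq', if_pos hx, Finset.sum_singleton]

lemma ent_ge {w : Finset α → ℝ} (h : Pr A w) {c : ℝ} (hc : ∀ x ∈ A, w x ≤ c) :
    - Real.log c ≤ ent A w id := by
  unfold ent
  refine neg_le_neg ?_
  calc _ ≤ ∑ x ∈ A, w x * Real.log c := Finset.sum_le_sum fun x hx => by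
        rw [cw_id w hx]
        exact mul_le_mul_of_nonneg_left (Real.log_le_log (h.1 x hx) (hc x hx)) (h.1 x hx).le
    _ = _ := by rw [← Finset.sum_mul, h.2, one_mul]

/-- The law of the union of two independent uniform members. -/
noncomputable def rho (A : Finset (Finset α)) (z : Finset α) : ℝ :=
  ∑ p ∈ A ×ˢ A with p.1 ∪ p.2 = z, unif A p.1 * unif A p.2

lemma push (hc : ∀ X ∈ A, ∀ Y ∈ A, X ∪ Y ∈ A) (F : Finset α → ℝ) :
    ∑ p ∈ A ×ˢ A, unif A p.1 * unif A p.2 * F (p.1 ∪ p.2) = ∑ z ∈ A, rho A z * F z := by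
  rw [← Finset.sum_fiberwise_of_maps_to (g := fun p : Finset α × Finset α => p.1 ∪ p.2) (t := A)
    fun p hp => hc _ (Finset.mem_product.1 hp).1 _ (Finset.mem_product.1 hp).2]
  refine Finset.sum_congr rfl fun z _ => ?_
  rw [rho, Finset.sum_mul]
  exact Finset.sum_congr rfl fun p hp => by rw [(Finset.mem_filter.1 hp).2]

lemma pr_rho (hA : A.Nonempty) (hc : ∀ X ∈ A, ∀ Y ∈ A, X ∪ Y ∈ A) : Pr A (rho A) := by
  have hp := pr_prod (pr_unif hA) (pr_unif hA)
  refine ⟨fun z hz => Finset.sum_pos (fun p h => hp.1 p (Finset.mem_filter.1 h).1)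
    ⟨(z, z), Finset.mem_filter.2 ⟨Finset.mem_product.2 ⟨hz, hz⟩, Finset.union_self _⟩⟩, ?_⟩
  have := push hc fun _ => 1
  simp only [mul_one] at this
  rw [← this, hp.2]

lemma av_rho (hc : ∀ X ∈ A, ∀ Y ∈ A, X ∪ Y ∈ A) (P : Finset α) :
    av A (rho A) P = av A (unif A) P ^ 2 := by
  have := push hc fun z => if Disjoint z P then 1 else 0
  simp only [mul_ite, mul_one, mul_zero, ← Finset.sum_filter, Finset.disjoint_union_left] at this
  rw [av, ← this, sq, av]
  exact sum_prod_filter A (unif A) (fun x => Disjoint x P) fun x => Disjoint x P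

lemma ent_union_le (hc : ∀ X ∈ A, ∀ Y ∈ A, X ∪ Y ∈ A) {μ ν : Finset α → ℝ} (hμ : Pr A μ)
    (hν : Pr A ν) :
    ent (A ×ˢ A) (fun p => μ p.1 * ν p.2) (fun p => p.1 ∪ p.2) ≤ Real.log A.card := by
  refine ent_le_log (pr_prod hμ hν) _ ?_
  exact_mod_cast Finset.card_le_card fun z hz => by
    obtain ⟨p, hp, rfl⟩ := Finset.mem_image.1 hz
    exact hc _ (Finset.mem_product.1 hp).1 _ (Finset.mem_product.1 hp).2

lemma log_le [Nonempty α] (h : NI A b) (hb : 0 < b) (hA : A.Nonempty)
    (hc : ∀ X ∈ A, ∀ Y ∈ A, X ∪ Y ∈ A) (W : Finset α)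
    (hW : ∀ e ∉ W, 2 * (A.filter fun Y => e ∈ Y).card ≤ A.card) {R : ℝ}
    (hR : R = 2 * (Real.log 2 * (W.card + 122 * b ^ 3)) + 1) :
    Real.log A.card ≤ 8 * R * Real.exp (4 * R) := by
  have hm : (0 : ℝ) < A.card := by exact_mod_cast hA.card_pos
  have hu := pr_unif hA
  have hr := pr_rho hA hc
  have l2 : 0 < Real.log 2 := Real.log_pos one_lt_two
  have l3 : Real.log 2 ≤ 1 := by linarith [Real.log_le_sub_one_of_pos two_pos]
  have R1 : 1 ≤ R := by
    rw [hR]
    have : 0 ≤ 2 * (Real.log 2 * ((W.card : ℝ) + 122 * b ^ 3)) := by positivity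
    linarith
  have eu : Real.log A.card ≤ ent A (unif A) id := by
    have := ent_ge hu (c := 1 / A.card) fun _ _ => le_rfl
    rwa [one_div, Real.log_inv, neg_neg] at this
  have p1 := gi h hb hA W hW hu hu (s := 1 / 2) (t := 1 / 2) (by norm_num) (by norm_num)
    (fun _ _ _ _ => by linarith) fun _ _ _ _ => by linarith
  have e1 : ent (A ×ˢ A) (fun p => unif A p.1 * unif A p.2) (fun p => p.1 ∪ p.2) =
      - ∑ z ∈ A, rho A z * Real.log (rho A z) := by
    rw [← push hc fun z => Real.log (rho A z)]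
    rfl
  set L := Real.exp (4 * R) with hL
  have L2 : 2 ≤ L := by linarith [Real.add_one_le_exp (4 * R)]
  set g := ∑ z ∈ A with A.card * rho A z ≤ L, rho A z with hg
  have g1 : g ≤ 1 := sum_le_one hr _
  have g2 : 3 / 4 ≤ g := by
    have pt : ∀ z ∈ A, rho A z * (4 * R) - (if A.card * rho A z ≤ L then rho A z else 0) * (4 * R)
        - 1 / A.card ≤ rho A z * Real.log A.card + rho A z * Real.log (rho A z) := by
      intro z hz
      have r0 := hr.1 z hz
      rw [← mul_add, ← Real.log_mul hm.ne' r0.ne']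
      have i0 : (0 : ℝ) < 1 / A.card := by positivity
      split_ifs with hh
      · have a1 := Real.one_sub_inv_le_log_of_pos (mul_pos hm r0)
        have a2 := mul_le_mul_of_nonneg_left a1 r0.le
        have a3 : rho A z * (1 - (A.card * rho A z)⁻¹) = rho A z - 1 / A.card := by field_simp
        linarith
      · have a1 : 4 * R ≤ Real.log (A.card * rho A z) := by
          rw [Real.le_log_iff_exp_le (mul_pos hm r0)]
          exact (not_le.1 hh).le
        have a2 := mul_le_mul_of_nonneg_left a1 r0.le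
        linarith
    have := Finset.sum_le_sum pt
    rw [Finset.sum_sub_distrib, Finset.sum_sub_distrib, Finset.sum_add_distrib, ← Finset.sum_mul,
      ← Finset.sum_mul, ← Finset.sum_mul, ← Finset.sum_filter, ← hg, hr.2, Finset.sum_const,
      nsmul_eq_mul, mul_one_div_cancel hm.ne'] at this
    have a4 : (1 - g) * (4 * R) ≤ R := by linarith
    by_contra hn
    nlinarith
  set lam := 1 / L with hlam
  have lam0 : 0 < lam := by positivity
  have lam1 : lam ≤ 1 / 2 := one_div_le_one_div_of_le two_pos L2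
  have lamL : lam * L = 1 := by rw [hlam]; field_simp
  set ν : Finset α → ℝ := fun z =>
    (1 + lam * g) * unif A z - lam * if A.card * rho A z ≤ L then rho A z else 0 with hν
  have lg : 0 < lam * g := mul_pos lam0 (by linarith)
  have hn : Pr A ν := by
    refine ⟨fun z hz => ?_, ?_⟩
    · have i0 : 0 < unif A z := hu.1 z hz
      have : (lam * if A.card * rho A z ≤ L then rho A z else 0) ≤ unif A z := by
        split_ifs with hh
        · unfold unif
          rw [le_div_iff₀ hm]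
          nlinarith
        · simpa using i0.le
      simp only [hν]
      nlinarith
    · simp only [hν]
      rw [Finset.sum_sub_distrib, ← Finset.mul_sum, ← Finset.mul_sum, ← Finset.sum_filter, ← hg,
        hu.2]
      ring
  have en : Real.log A.card - Real.log 2 ≤ ent A ν id := by
    have := ent_ge hn (c := 2 / A.card) fun z hz => by
      have i0 : 0 < unif A z := hu.1 z hz
      have a1 : 0 ≤ lam * if A.card * rho A z ≤ L then rho A z else 0 := by
        have := hr.1 z hz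
        split_ifs
        · positivity
        · simp
      have a2 : (2 : ℝ) / A.card = 2 * unif A z := by unfold unif; ring
      have a3 : lam * g ≤ 1 := by nlinarith
      simp only [hν]
      nlinarith
    rw [Real.log_div two_ne_zero hm.ne'] at this
    linarith
  have an : ∀ P (l : ℝ), 0 ≤ l → 1 / 2 - l ≤ av A (unif A) P →
      1 / 2 + lam / 8 - 2 * l ≤ av A ν P := by
    intro P l hl hs
    have s0 : 0 ≤ av A (unif A) P := sum_nn hu _
    have s1 : av A (unif A) P ≤ 1 := sum_le_one hu _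
    have a1 : ∑ z ∈ A with Disjoint z P, (if A.card * rho A z ≤ L then rho A z else 0) ≤
        av A (unif A) P ^ 2 := by
      rw [← av_rho hc]
      refine Finset.sum_le_sum fun z hz => ?_
      split_ifs
      · exact le_rfl
      · exact (hr.1 z (Finset.mem_filter.1 hz).1).le
    have a2 : av A ν P = (1 + lam * g) * av A (unif A) P -
        lam * ∑ z ∈ A with Disjoint z P, (if A.card * rho A z ≤ L then rho A z else 0) := by
      simp only [av, hν]
      rw [Finset.sum_sub_distrib, ← Finset.mul_sum, ← Finset.mul_sum]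
    have a3 := mul_le_mul_of_nonneg_left a1 lam0.le
    rw [a2]
    set s := av A (unif A) P
    have a4 : lam * (3 / 4) ≤ lam * g := mul_le_mul_of_nonneg_left g2 lam0.le
    have a5 : (1 + lam * g) * s - lam * s ^ 2 =
        1 / 2 + (lam * g / 2 - lam / 4) + (s - 1 / 2) * (1 + lam * (g - s - 1 / 2)) := by ring
    have a6 : 0 ≤ 1 + lam * (g - s - 1 / 2) := by nlinarith
    have a7 : 1 + lam * (g - s - 1 / 2) ≤ 2 := by nlinarith
    have a8 : -(2 * l) ≤ (s - 1 / 2) * (1 + lam * (g - s - 1 / 2)) := by nlinarith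
    linarith
  have p2 := gi h hb hA W hW hu hn (s := 1 / 2 + lam / 8) (t := 1 / 2) (by linarith) (by norm_num)
    an fun _ _ _ _ => by linarith
  have p3 := ent_union_le hc hu hn
  have p4 := mul_le_mul_of_nonneg_left eu (by linarith : 0 ≤ 1 / 2 + lam / 8)
  have p5 : lam * Real.log A.card ≤ 8 * R := by linarith
  calc Real.log A.card = lam * Real.log A.card * L := by rw [mul_right_comm, lamL, one_mul]
    _ ≤ _ := mul_le_mul_of_nonneg_right p5 (by linarith)

/-- A union-closed family is small in terms of its VC-dimension and the number of elements lying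
in more than half of its members. -/
theorem main [Nonempty α] (hc : ∀ X ∈ A, ∀ Y ∈ A, X ∪ Y ∈ A) (W : Finset α)
    (hW : ∀ e ∉ W, 2 * (A.filter fun Y => e ∈ Y).card ≤ A.card) :
    A.card ≤ 2 ^ 2 ^ (1230 * (A.vcDim + 1) ^ 3 + 10 * W.card) := by
  rcases A.eq_empty_or_nonempty with rfl | hA
  · simp
  have hm : (0 : ℝ) < A.card := by exact_mod_cast hA.card_pos
  obtain ⟨b, hb⟩ : ∃ b, b = A.vcDim + 1 := ⟨_, rfl⟩
  have b0 : 0 < b := by omega
  have h1 := log_le (hb ▸ ni_vc hc : NI A b) b0 hA hc W hW rfl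
  rw [← hb]
  obtain ⟨N, hN⟩ : ∃ N, N = W.card + 122 * b ^ 3 := ⟨_, rfl⟩
  have hN' : (W.card : ℝ) + 122 * b ^ 3 = N := by rw [hN]; push_cast; ring
  rw [hN'] at h1
  have l2 := Real.log_two_gt_d9
  have l3 := Real.log_two_lt_d9
  have e1 : Real.exp (4 * (2 * (Real.log 2 * N) + 1)) = 2 ^ (8 * N) * Real.exp 1 ^ 4 := by
    rw [← Real.exp_nat_mul, ← Real.exp_log (x := 2 ^ (8 * N)) (by positivity), Real.log_pow,
      ← Real.exp_add]
    congr 1
    push_cast
    ring
  have e2 : Real.exp 1 ^ 4 ≤ 3 ^ 4 :=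
    pow_le_pow_left₀ (Real.exp_pos 1).le (by linarith [Real.exp_one_lt_d9]) 4
  have e3 : 2 * (Real.log 2 * N) + 1 ≤ 2 ^ (2 * N) := by
    have a1 : ((2 * N + 1 : ℕ) : ℝ) ≤ (2 ^ (2 * N) : ℕ) := by
      exact_mod_cast Nat.lt_two_pow_self (n := 2 * N)
    push_cast at a1
    have : (0 : ℝ) ≤ N := Nat.cast_nonneg _
    nlinarith
  have e4 : Real.log A.card ≤ 2 ^ (10 * N + 10) * Real.log 2 := by
    rw [e1] at h1
    have a1 : (2 : ℝ) ^ (10 * N + 10) = 2 ^ (2 * N) * 2 ^ (8 * N) * 1024 := by ring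
    have a2 : (0 : ℝ) < 2 ^ (2 * N) * 2 ^ (8 * N) := by positivity
    calc _ ≤ _ := h1
      _ ≤ 8 * 2 ^ (2 * N) * (2 ^ (8 * N) * 3 ^ 4) := by gcongr
      _ = 2 ^ (2 * N) * 2 ^ (8 * N) * 648 := by ring
      _ ≤ _ := by
        rw [a1, mul_assoc _ 1024]
        exact mul_le_mul_of_nonneg_left (by linarith) a2.le
  have e5 : (A.card : ℝ) ≤ 2 ^ 2 ^ (10 * N + 10) := by
    rw [← Real.log_le_log_iff hm (by positivity), Real.log_pow]
    exact_mod_cast e4
  have e6 : A.card ≤ 2 ^ 2 ^ (10 * N + 10) := by exact_mod_cast e5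
  refine e6.trans (Nat.pow_le_pow_right two_pos (Nat.pow_le_pow_right two_pos ?_))
  have := Nat.one_le_pow 3 b b0
  omega

end Pool.Agent.MP_163ab5_co.VC

end
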